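import Pool.Agent.X65.BC.Poly

/-!
# The upper broadcast number and the upper broadcast irredundance number are NP-hard

Problem MP_7a9dcc_lc, Q1, the parts for `Γ_b` and `IR_b`. The definitions are in
`Pool.Agent.X65.BC.Defs`: `ecc G v` is the eccentricity; `IsBroadcast G f` says `f v ≤ ecc G v` for
all `v`; `cost f = ∑ v, f v`; `Hears G f x v`, `Dominating G f`, `MinimalDominating G f`, the private
boundary `PB G f v` and `Irredundant G f` are as in the problem; `Gb G` is the maximum cost of a
minimal dominating broadcast and `IRb G` is the maximum cost of an irredundant broadcast.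

`GbAtLeast (M, k)` says that `M` is the adjacency matrix of a connected graph `G` with at least two
vertices and `Γ_b(G) ≥ k`; `IRbAtLeast (M, k)` is the same for `IR_b`.
-/

set_option autoImplicit false

namespace Pool.Agent.Results.MP_7a9dcc_lc.UpperParameters

open Pool.Agent.NPC Pool.Agent.NPC.R671 Pool.Agent.X65.BC

/-- **Computing `Γ_b` and computing `IR_b` are NP-hard**, also for graphs with a universal vertex.
Moreover, one reduction works for all parameters between `Γ_b` and `IR_b`: for every `L` in `NP`
there is a polynomial-time function that maps words to pairs `(G, k)`, such that `Γ_b(G) ≥ k` for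
the words in `L`, and `IR_b(G) < k` for the other words. -/
theorem result :
    NPHardP GbAtLeast ∧ NPHardP IRbAtLeast ∧
    ∀ L : Set (List Bool), InNP L → ∃ f : List Bool → List Bool, PolyTime f ∧
      ∀ w, ∃ (n : ℕ) (G : SimpleGraph (Fin n)) (k : ℕ), f w = bits (adjMatrix G, k) ∧ 2 ≤ n ∧
        (∃ u, ∀ v, v ≠ u → G.Adj u v) ∧ (w ∈ L → k ≤ Gb G) ∧ (w ∉ L → IRb G < k) :=
  ⟨hardI_Gb.toNPHardP, hardI_IRb.toNPHardP, hard_both⟩

end Pool.Agent.Results.MP_7a9dcc_lc.UpperParameters
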